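import Pool.Agent.Helper81.XP.StB

namespace Pool.Agent.Helper82.XP

open Finset Pool.Agent.Helper81.XP

theorem st_RTL : ST_RTL := by
  intro K _ _ O G w hl hG
  by_contra hcon
  push Not at hcon
  have hG0 : G ≠ 0 := by
    rintro rfl
    simp at hl
  have hs := IsAlgClosed.splits G
  have he : G.eval w = G.leadingCoeff * (G.roots.map (fun a => w - a)).prod := by
    conv_lhs => rw [hs.eq_prod_roots]
    rw [Polynomial.eval_mul, Polynomial.eval_C, Polynomial.eval_multiset_prod, Multiset.map_map]
    simp
  rw [he, map_mul, hl, one_mul, map_multiset_prod, Multiset.map_map] at hG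
  have : 1 ≤ (G.roots.map (fun a => O.valuation (w - a))).prod := by
    refine Multiset.one_le_prod_of_one_le ?_
    intro x hx
    rw [Multiset.mem_map] at hx
    obtain ⟨a, ha, rfl⟩ := hx
    exact hcon a (Polynomial.isRoot_of_mem_roots ha)
  exact absurd (lt_of_le_of_lt this hG) (lt_irrefl _)

end Pool.Agent.Helper82.XP
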