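import Pool.Agent.Helper81.XP.StA

set_option autoImplicit false

/-!
MP_f90738_co: module SML (trivial expansion of a generating pair of a finite group).
-/

open Finset
open scoped Pointwise

namespace Pool.Agent.Helper82.XP

open Pool.Agent.Helper81.XP

open Classical in
theorem st_SML : ST_SML := by
  intro G _ _ a b hgen
  haveI := Fintype.ofFinite G
  intro X hX
  have hN : 0 < Nat.card G := Nat.card_pos
  have hN' : (0:ℝ) < (Nat.card G : ℝ) := by exact_mod_cast hN
  rcases X.eq_empty_or_nonempty with h0 | hne
  · subst h0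
    simp
  have hpos : 1 ≤ ((((({a, b} : Finset G) ∪ ({a, b} : Finset G)⁻¹) * X) \ X).card) := by
    by_contra hcon
    have hz : (((({a, b} : Finset G) ∪ ({a, b} : Finset G)⁻¹) * X) \ X) = ∅ := by
      rw [← Finset.card_eq_zero]
      omega
    rw [Finset.sdiff_eq_empty_iff_subset] at hz
    have hinv : ∀ s ∈ ({a, b} : Finset G) ∪ ({a, b} : Finset G)⁻¹, ∀ x ∈ X, s * x ∈ X :=
      fun s hs x hx => hz (Finset.mul_mem_mul hs hx)
    have hall : ∀ g : G, (∀ x ∈ X, g * x ∈ X) ∧ (∀ x ∈ X, g⁻¹ * x ∈ X) := by
      intro g
      have hg : g ∈ Subgroup.closure ({a, b} : Set G) := by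
        rw [hgen]
        trivial
      induction hg using Subgroup.closure_induction with
      | mem s hs =>
        have hs' : s ∈ ({a, b} : Finset G) := by
          simpa using hs
        refine ⟨fun x hx => hinv s (Finset.mem_union_left _ hs') x hx,
          fun x hx => hinv s⁻¹ (Finset.mem_union_right _ (Finset.inv_mem_inv hs')) x hx⟩
      | one => exact ⟨fun x hx => by simpa using hx, fun x hx => by simpa using hx⟩
      | mul u v _ _ hu hv =>
        refine ⟨fun x hx => ?_, fun x hx => ?_⟩
        · rw [mul_assoc]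
          exact hu.1 _ (hv.1 _ hx)
        · rw [mul_inv_rev, mul_assoc]
          exact hv.2 _ (hu.2 _ hx)
      | inv u _ hu =>
        refine ⟨hu.2, fun x hx => ?_⟩
        rw [inv_inv]
        exact hu.1 x hx
    obtain ⟨x0, hx0⟩ := hne
    have huniv : X = Finset.univ := by
      apply Finset.eq_univ_of_forall
      intro y
      have := (hall (y * x0⁻¹)).1 x0 hx0
      simpa using this
    have hc : X.card = Nat.card G := by
      rw [huniv, Finset.card_univ, Nat.card_eq_fintype_card]
    omega
  have hXN : X.card ≤ Nat.card G := by omega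
  have h1 : (1 / (Nat.card G : ℝ)) * (X.card : ℝ) ≤ 1 := by
    rw [one_div, inv_mul_le_iff₀ hN']
    rw [mul_one]
    exact_mod_cast hXN
  refine h1.trans ?_
  exact_mod_cast hpos

end Pool.Agent.Helper82.XP
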