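import Pool.Agent.Helper81.XP.StB

namespace Pool.Agent.Helper82.XP

open Finset Pool.Agent.Helper81.XP

theorem st_HVY : ST_HVY := by
  classical
  intro G _ ι S M cl hS hM
  set W : Fin 3 → G := fun k => ∏ i ∈ S.filter (fun i => cl i = k), M i with hW
  obtain ⟨j, -, hj⟩ := Finset.exists_max_image (univ : Finset (Fin 3)) W ⟨0, mem_univ _⟩
  have hone : ∀ k, 1 ≤ W k := fun k =>
    Finset.one_le_prod' fun i hi => (hM i (mem_filter.1 hi).1).le
  have hne : ∃ i ∈ S, cl i = j := by
    obtain ⟨i, hi⟩ := hS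
    by_contra hcon
    push Not at hcon
    have h1 : W j = 1 := by
      have : S.filter (fun i => cl i = j) = ∅ := by
        rw [filter_eq_empty_iff]
        intro x hx hxj
        exact hcon x hx hxj
      simp only [hW, this, prod_empty]
    have h2 : M i ≤ W (cl i) := by
      refine Finset.single_le_prod' (f := M) (fun x hx => (hM x (mem_filter.1 hx).1).le) ?_
      exact mem_filter.2 ⟨hi, rfl⟩
    have h3 := hj (cl i) (mem_univ _)
    rw [h1] at h3
    exact absurd (lt_of_lt_of_le (hM i hi) (h2.trans h3)) (lt_irrefl _)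
  refine ⟨j, hne, fun f hf hprod => ?_⟩
  by_contra hcon
  push Not at hcon
  have hsplit : (∏ i ∈ S.filter (fun i => cl i = j), f i) * (∏ i ∈ S.filter (fun i => ¬ cl i = j), f i) =
      ∏ i ∈ S, f i := prod_filter_mul_prod_filter_not S (fun i => cl i = j) f
  have hWn : ∏ i ∈ S.filter (fun i => ¬ cl i = j), M i ≤ W j ^ 2 := by
    have h1 : ∏ i ∈ S.filter (fun i => ¬ cl i = j), M i = ∏ k ∈ univ.erase j, W k := by
      have hmap : ∀ i ∈ S.filter (fun i => ¬ cl i = j), cl i ∈ univ.erase j := by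
        intro i hi
        rw [mem_erase]
        exact ⟨(mem_filter.1 hi).2, mem_univ _⟩
      rw [← prod_fiberwise_of_maps_to hmap]
      refine prod_congr rfl fun k hk => ?_
      refine prod_congr ?_ fun _ _ => rfl
      ext i
      simp only [mem_filter]
      constructor
      · rintro ⟨⟨h1, h2⟩, h3⟩
        exact ⟨h1, h3⟩
      · rintro ⟨h1, h3⟩
        exact ⟨⟨h1, by rw [h3]; exact (mem_erase.1 hk).1⟩, h3⟩
    rw [h1]
    have h2 := Finset.prod_le_pow_card (univ.erase j) W (W j) (fun k _ => hj k (mem_univ _))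
    have h3 : (univ.erase j : Finset (Fin 3)).card = 2 := by
      rw [card_erase_of_mem (mem_univ _)]
      simp
    rwa [h3] at h2
  have hFn : ∏ i ∈ S.filter (fun i => ¬ cl i = j), f i ≤ W j ^ 128 := by
    calc ∏ i ∈ S.filter (fun i => ¬ cl i = j), f i ≤ ∏ i ∈ S.filter (fun i => ¬ cl i = j), M i ^ 64 :=
          prod_le_prod' fun i hi => hf i (mem_filter.1 hi).1
      _ = (∏ i ∈ S.filter (fun i => ¬ cl i = j), M i) ^ 64 := prod_pow _ _ _
      _ ≤ (W j ^ 2) ^ 64 := pow_le_pow_left' hWn 64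
      _ = W j ^ 128 := by rw [← pow_mul]
  have hFj : (∏ i ∈ S.filter (fun i => cl i = j), f i) * W j ^ 128 < 1 := by
    have h1 : (∏ i ∈ S.filter (fun i => cl i = j), f i) * W j ^ 128 =
        ∏ i ∈ S.filter (fun i => cl i = j), (f i * M i ^ 128) := by
      rw [prod_mul_distrib, prod_pow]
    rw [h1]
    refine prod_induction_nonempty (fun i => f i * M i ^ 128) (fun g => g < 1) ?_ ?_ ?_
    · intro a b ha hb
      exact lt_of_le_of_lt (mul_le_of_le_one_right' hb.le) ha
    · obtain ⟨i, hi, hij⟩ := hne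
      exact ⟨i, mem_filter.2 ⟨hi, hij⟩⟩
    · intro i hi
      exact hcon i (mem_filter.1 hi).1 (mem_filter.1 hi).2
  have : (1 : G) ≤ (∏ i ∈ S.filter (fun i => cl i = j), f i) * W j ^ 128 := by
    rw [← hsplit] at hprod
    exact hprod.trans (mul_le_mul_right hFn _)
  exact absurd (lt_of_le_of_lt this hFj) (lt_irrefl _)

end Pool.Agent.Helper82.XP
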